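import Pool.Agent.X312.FK.Lift

/-!
# A gap law for lifting cohomologically trivial cycles orthogonally to fibral cycles

Let `E` be a number field, let `Y` be **any** smooth projective variety over `E`, and let `X` be a
smooth projective variety over `E` such that the numerically trivial self-correspondences of its
powers are nilpotent modulo rational equivalence and homological and numerical equivalence agree
on its powers (products of curves, abelian varieties). Suppose that the varieties `Y × X ^ n`, `n
≥ 1`, have regular proper flat models over the ring of integers of `E`. Let `ρ(Z)` be the rank of
the cycles of all codimensions on `Z` modulo numerical equivalence, and `b` the sum of the Betti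
numbers of `X`. For all `m ≥ 1`: **all the cohomologically trivial cycles on** `Y × X ^ m` **(with
rational coefficients) lift to cycles on the model which are orthogonal to all fibral cycles, or
for all** `n ≥ 1` **at least**

`(1 - 4 (m + 3) b ^ (m + 5) log (n + 1) / n) ρ(X ^ n)`

**cohomologically trivial cycles on** `Y × X ^ n` **are linearly independent modulo rational
equivalence and modulo those which have such lifts.** So one cohomologically trivial cycle on `Y ×
X ^ m` for which no lift is orthogonal to the fibral cycles gives almost `ρ(X ^ n)` independent
cycles of this kind on `Y × X ^ n` for all `n`. The reduction of `X` and of `Y` may be arbitrarily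
bad.

A correspondence `a` from `Z` to `Z'`, `Z` and `Z'` powers of `X`, acts on cycles on the models of
`Y × Z`, `Y × Z'` by the closure of `Δ_Y × a` in the product of the models, and for a fibral cycle
`v` the projection formula gives `(a_* s, v) = (s, a^* v)`, where `a^* v` is again fibral; so the
cycles which lift orthogonally are stable under correspondences.

The proof. Modulo numerical equivalence the self-correspondences of `P = X ^ m` form a
finite-dimensional algebra, and the numerically trivial ones are nilpotent, so that idempotents
can be lifted. Let `N` be a functor which does not vanish on `P`. One takes an idempotent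
correspondence `g` on `P` of minimal rank with `g N(P) ≠ 0` and an element `z ≠ 0` of `g N(P)`.
The correspondences `x` with `x z = 0` have a nilpotent compression `g x g`, so the trace of `g x`
vanishes, and so `dim N(Z)` is at least the rank of the trace form `(u, v) ↦ tr (g v u)` on the
correspondences between `P` and `Z`; for `Z = X ^ n` this rank is compared with `ρ(X ^ n)` by the
log-convexity of the sequence of the ranks of the intersection forms and by the symmetric group.
Apply this to the quotient of the functor of the cohomologically trivial cycles on `Y × Z` by the
subfunctor of those which lift.
-/

set_option autoImplicit false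

open CategoryTheory AlgebraicGeometry

universe u v w

namespace Pool.Agent.Results.MP_62d77c_ag.GapLaw

open Pool.Agent.H914 VarClass Obj WeilCohomology
open Pool.Agent.X312.FK (ChowData ChowModule ModelData IndepMod gapBound)
open Pool.Agent.Y133.Half (pw cycRank)

variable {k : Type u} [Field k] {𝒱 : VarClass k} {ops : CycleOps 𝒱}
  {W : WeilCohomology.{u, v} ops}

/-- The sum of the Betti numbers of `X`. -/
noncomputable def totalBetti (W : WeilCohomology.{u, v} ops) (X : 𝒱.Obj) : ℕ :=
  Module.finrank W.K (W.H X)

/-- **The gap law for orthogonal lifts.** In the intended use `C` is the category of Chow correspondences
between the powers of `X` over the number field, with rational coefficients, `T.M Z` is the space of the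
cohomologically trivial cycles on `Y × Z` modulo rational equivalence, `D.S Z` is the space of the cycles
on the regular model of `Y × Z` whose restrictions to the generic fibre are cohomologically trivial,
`D.V Z` is the set of the fibral cycles, `D.res` is the restriction to the generic fibre and `D.pair` is
the arithmetic intersection number with values in `R = ℝ`. Here `pw X m` is the product of `m + 1`
copies of `X`. -/
theorem result (C : ChowData W) (hC : C.IsChow) (T : ChowModule C) (hT : T.IsFunctor)
    {R : Type v} [AddCommGroup R] [Module W.K R] (D : ModelData T R) (hD : D.IsLinear)
    (hD' : D.Extends) (X : 𝒱.Obj) (hX : ∀ n : ℕ, C.NumNil (pw X n))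
    (hX' : ∀ n : ℕ, HomEqNum W (pw X n)) (m : ℕ) :
    (∀ x : T.M (pw X m), D.Lifts x) ∨
    ∀ n : ℕ, IndepMod (Set.univ : Set (T.M (pw X n))) (Submodule.span W.K {x | D.Lifts x})
      (gapBound (totalBetti W X) (cycRank ops (pw X n)) m n) :=
  Pool.Agent.X312.FK.lift_law hC hT hD hD' X hX hX' m

end Pool.Agent.Results.MP_62d77c_ag.GapLaw
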