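import Pool.Agent.X268.LF.Final

/-!
# Lifting cohomologically trivial cycles orthogonally to the fibral cycles

Let `X` be a smooth proper variety of dimension `d = k + 2` over a number field `E` and `𝒳` any regular proper
flat model of `X` over `O_E`.

**Theorem.** Let `c` be a cohomologically trivial cycle of codimension `i` on `X`. If `i ≥ d - 1` (cycles of
dimension at most one, `X` of any dimension), or if `d ≤ 3` (all cycles), then `c` has a lift to `𝒳` that
is orthogonal to all fibral cycles, that is, `Q1` holds.

So `Q1` holds for all `X` of dimension at most three and all `i`, and for one-cycles on all `X`; in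
particular the height pairing of Beilinson and Bloch between the one-cycles and the cycles of
codimension two is defined for all `X`.

By de Jong there is an alteration `f : 𝒳' → 𝒳` with `𝒳'` projective and strictly semistable over the ring of
integers of a finite extension `E'` (if one prefers, one localizes at one place of `E`: the lifts over
the different places glue). Let `S` be the finite set of places of `E'` where `𝒳'` is not smooth and let
`R₁ v`, `R₂ v`, `R₃ v` be the rings of cycles modulo numerical equivalence on the disjoint unions of the
components of the fibre over `v`, of their double and of their triple intersections, which are smooth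
projective over the residue field (with `q v` elements), of pure dimension `d`, `d - 1`, `d - 2`. They are
graded, finite dimensional, and the pairings are nondegenerate by definition (`IsNumRing`). The
restrictions `ρ₁, ρ₂` and the Gysin maps `γ₁, γ₂` (alternating sums) have the usual properties
(`IsStrata`). The only input from the theory of algebraic cycles is the Hodge index theorem in codimension
at most `m` on the components and on their double intersections; it is a classical theorem for `m = 1`,
and this is the case used above. (For larger `m` the theorem gives all `i` if `d ≤ 2 m + 1`; this is a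
theorem without conditions also if the strata are e.g. products of toric or cellular varieties that lift
to characteristic zero with a surface.)

`IsSemistableModel`: (surjective) every cycle on the generic fibre `X'` extends to `𝒳'`; (closed) the
restrictions of a cycle on `𝒳'` to two components agree on their intersection; (orthogonal) if the cycle
`z` on `𝒳'` is cohomologically trivial on `X'`, then its restriction to the components is orthogonal to the
kernel of `ρ₁`: by the weight spectral sequence of Rapoport and Zink, which degenerates, the class of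
this restriction is the image of a cohomology class `u` under the Gysin map, so that its product with `y`
has the same degree as `u · ρ₁ y`, and `ρ₁ y` is homologous to zero if it is numerically equivalent to
zero, since it is of codimension `d - i ≤ 1` on the double intersections or these are surfaces or curves
(for larger `m` this is a further condition); (vertical) the class of a cycle on the component `Y` that is
pushed forward to `𝒳'` restricts to the components as `± γ₁ (ρ₁ x)`, since the fibre is a principal
divisor locally. `IsAlteration`: the projection formula for the alteration and the Gillet–Soulé pairing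
`GS` with fibral cycles: the inverse image of a fibral cycle is a sum of cycles on components of fibres,
and its intersection number with a cycle `z` with cohomologically trivial generic fibre is the
sum of the intersection numbers over the places in `S` multiplied with `log (q v)`, since the restriction
of `z` to a smooth fibre is homologous to zero. All of these are known theorems.

The proof. By duality one has to show: if `w` is a class of codimension `r = d - i` on the components
and `γ₁ (ρ₁ w) = 0`, then `w` is the sum of an element of the kernel of `ρ₁` and an element of the image of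
`γ₁` (a `∂∂̄`-lemma for algebraic cycles). If the Hodge index theorem is known in all codimensions, this
follows from the harmonic theory for the algebraic cycles on the strata; hard Lefschetz modulo numerical
equivalence follows from the Hodge index theorem and the perfectness of the pairing. For `r = 1` (and any
`d`) there is a direct argument with divisor classes.
-/

set_option autoImplicit false

universe u v

namespace Pool.Agent.Results.MP_62d77c_ag.OneCyclesAndThreefolds

open Pool.Agent.X268.SR Pool.Agent.X268.LF

/-- **Every cohomologically trivial cycle of codimension `i` lifts orthogonally to the fibral cycles, if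
`i ≥ d - 1` or `d ≤ 3`** (`m = 1`); and for all `i` if `d ≤ 2 m + 1` and the Hodge index theorem is known in
codimension at most `m`. Here `d = k + 2`. -/
theorem result {S : Type} [Fintype S] (k m i N : ℕ) (q : S → ℕ)
    -- the cycles of codimension `i`: on the model and on `X`, on the semistable model and on `X'`
    {Z Z' A A' W : Type v} [AddCommGroup Z] [Module ℚ Z] [AddCommGroup A] [Module ℚ A]
    [AddCommGroup Z'] [Module ℚ Z'] [AddCommGroup A'] [Module ℚ A'] [AddCommGroup W] [Module ℚ W]
    -- the rings of algebraic cycles modulo numerical equivalence on the strata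
    {R₁ R₂ R₃ : S → Type u} [∀ v, CommRing (R₁ v)] [∀ v, Algebra ℚ (R₁ v)]
    [∀ v, CommRing (R₂ v)] [∀ v, Algebra ℚ (R₂ v)] [∀ v, CommRing (R₃ v)] [∀ v, Algebra ℚ (R₃ v)]
    [∀ v, Module.Finite ℚ (R₁ v)] [∀ v, Module.Finite ℚ (R₂ v)] [∀ v, Module.Finite ℚ (R₃ v)]
    (gr₁ : ∀ v, ℕ → Submodule ℚ (R₁ v)) (deg₁ : ∀ v, R₁ v →ₗ[ℚ] ℚ) (D₁ : ∀ v, R₁ v)
    (gr₂ : ∀ v, ℕ → Submodule ℚ (R₂ v)) (deg₂ : ∀ v, R₂ v →ₗ[ℚ] ℚ) (D₂ : ∀ v, R₂ v)
    (gr₃ : ∀ v, ℕ → Submodule ℚ (R₃ v)) (deg₃ : ∀ v, R₃ v →ₗ[ℚ] ℚ) (D₃ : ∀ v, R₃ v)
    (h₁ : ∀ v, IsNumRing (k + 2) (gr₁ v) (deg₁ v) (D₁ v))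
    (h₂ : ∀ v, IsNumRing (k + 1) (gr₂ v) (deg₂ v) (D₂ v))
    -- the Hodge index theorem in codimension at most `m`
    (hH₁ : ∀ v, IsHodgeIndexUpTo m (k + 2) (gr₁ v) (deg₁ v) (D₁ v))
    (hH₂ : ∀ v, IsHodgeIndexUpTo m (k + 1) (gr₂ v) (deg₂ v) (D₂ v))
    -- restriction and Gysin maps
    (ρ₁ : ∀ v, R₁ v →ₗ[ℚ] R₂ v) (ρ₂ : ∀ v, R₂ v →ₗ[ℚ] R₃ v)
    (γ₁ : ∀ v, R₂ v →ₗ[ℚ] R₁ v) (γ₂ : ∀ v, R₃ v →ₗ[ℚ] R₂ v)
    (hS : ∀ v, IsStrata (gr₁ v) (deg₁ v) (D₁ v) (gr₂ v) (deg₂ v) (D₂ v) (gr₃ v) (deg₃ v) (D₃ v)
      (ρ₁ v) (ρ₂ v) (γ₁ v) (γ₂ v))
    -- the semistable model and the alteration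
    (η : Z →ₗ[ℚ] A) (η' : Z' →ₗ[ℚ] A') (σ : ∀ v, Z' →ₗ[ℚ] R₁ v) (GS : Z →ₗ[ℚ] W →ₗ[ℚ] ℝ)
    (pull : A →ₗ[ℚ] A') (pushA : A' →ₗ[ℚ] A) (push : Z' →ₗ[ℚ] Z)
    (hM : IsSemistableModel i gr₁ deg₁ ρ₁ γ₁ η' σ)
    (hf : IsAlteration N q deg₁ η η' σ GS pull pushA push)
    (hm : 1 ≤ m) (hi : k + 1 ≤ i ∨ k + 2 ≤ 2 * m + 1) :
    ∀ c : A, ∃ z : Z, η z = c ∧ ∀ w : W, GS z w = 0 :=
  exists_lift h₁ h₂ hH₁ hH₂ hS hM hf hm (by omega)

end Pool.Agent.Results.MP_62d77c_ag.OneCyclesAndThreefolds
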